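import Pool.Agent.Lib.MP_77f3ac_co_h39.Quiet

/-!
# MP_77f3ac_co: the exchange move

Maker takes `m` of the two-point line `A = {m, a}`, Breaker answers `a`.
-/

set_option autoImplicit false

namespace Torus103
open Finset
variable {P : Type*} [DecidableEq P]

namespace X56

open Q39

/-- the statement of the core inequality, for one family and one mark -/
def Core (F : Finset P) (𝓛 : Finset (Finset P)) (m : P) : Prop :=
  2 * Sm F 𝓛 m 1 + 4 * Sm F 𝓛 m 2 + 11 / 2 * Sm F 𝓛 m 3 + 3 * Sm F 𝓛 m 4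
      + Om F 𝓛 m 1 + 2 * Om F 𝓛 m 2 + 4 * Om F 𝓛 m 3 ≤ 5 / 4 →
    5 / 2 * Sv F 𝓛 m 3 + 3 * Sv F 𝓛 m 4 ≤ 1 / 4

/-- the clusters of `𝓛` -/
noncomputable def T (F : Finset P) (𝓛 : Finset (Finset P)) : Finset (Finset (Finset P)) :=
  𝓛.powerset.filter (Conn F)

theorem mem_T {F : Finset P} {𝓛 : Finset (Finset P)} {C : Finset (Finset P)} :
    C ∈ T F 𝓛 ↔ C ⊆ 𝓛 ∧ Conn F C := by
  rw [T, mem_filter, mem_powerset]

theorem Sm_eq (F : Finset P) (𝓛 : Finset (Finset P)) (m : P) (k : ℕ) :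
    Sm F 𝓛 m k = ∑ C ∈ T F 𝓛, if C.card = k ∧ m ∈ un F C then 2 * w F C else 0 := by
  rw [Sm, ← sum_filter]
  refine sum_congr ?_ fun _ _ => rfl
  ext C
  simp only [mem_filter, mem_powersetCard, mem_T]
  tauto

theorem Om_eq (F : Finset P) (𝓛 : Finset (Finset P)) (m : P) (k : ℕ) :
    Om F 𝓛 m k = ∑ C ∈ T F 𝓛, if C.card = k ∧ m ∉ un F C then w F C else 0 := by
  rw [Om, ← sum_filter]
  refine sum_congr ?_ fun _ _ => rfl
  ext C
  simp only [mem_filter, mem_powersetCard, mem_T]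
  tauto

theorem Sv_eq (F : Finset P) (𝓛 : Finset (Finset P)) (m : P) (k : ℕ) :
    Sv F 𝓛 m k = ∑ C ∈ T F 𝓛,
      if C.card = k ∧ Conn (F.erase m) C ∧ m ∈ un F C then 2 * w F C else 0 := by
  rw [Sv, ← sum_filter]
  refine sum_congr ?_ fun _ _ => rfl
  ext C
  simp only [mem_filter, mem_powersetCard, mem_T]
  constructor
  · rintro ⟨⟨h1, h2⟩, h3, h4⟩
    exact ⟨⟨h1, conn_mono (erase_subset _ _) h3⟩, h2, h3, h4⟩
  · rintro ⟨⟨h1, _⟩, h2, h3, h4⟩
    exact ⟨⟨h1, h2⟩, h3, h4⟩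

theorem conn_singleton (F : Finset P) (A : Finset P) : Conn F {A} := by
  refine ⟨singleton_nonempty A, fun S hS hS1 hS2 => ?_⟩
  exfalso
  obtain ⟨s, hs⟩ := hS1
  have h1 : s = A := mem_singleton.1 (hS hs)
  obtain ⟨t, ht⟩ := hS2
  obtain ⟨ht1, ht2⟩ := mem_sdiff.1 ht
  have h2 : t = A := mem_singleton.1 ht1
  exact ht2 (by rw [h2, ← h1]; exact hs)

/-- adding a line that meets a cluster -/
theorem conn_insert {F : Finset P} {C : Finset (Finset P)} {A : Finset P} {x : P}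
    (hC : Conn F C) (hx : x ∈ un F C) (hA : x ∈ A) : Conn F (insert A C) := by
  obtain ⟨⟨L, hL, hxL⟩, hxF⟩ := mem_un.1 hx
  refine ⟨insert_nonempty _ _, fun S hS hS1 hS2 => ?_⟩
  by_cases hAC : A ∈ C
  · rw [insert_eq_of_mem hAC] at hS hS2 ⊢
    exact hC.2 S hS hS1 hS2
  -- split `S ∩ C` and `C \ S`
  by_cases h1 : (S ∩ C).Nonempty
  · by_cases h2 : (C \ S).Nonempty
    · have h3 : C \ (S ∩ C) = C \ S := by
        ext y; simp only [mem_sdiff, mem_inter]; tauto
      obtain ⟨u, hu, v, hv, hne⟩ := hC.2 (S ∩ C) inter_subset_right h1 (by rw [h3]; exact h2)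
      rw [h3] at hv
      refine ⟨u, (mem_inter.1 hu).1, v, ?_, hne⟩
      rw [mem_sdiff] at hv ⊢
      exact ⟨mem_insert_of_mem hv.1, hv.2⟩
    · -- `C ⊆ S`, so `A ∉ S`
      rw [not_nonempty_iff_eq_empty, sdiff_eq_empty_iff_subset] at h2
      have hAS : A ∉ S := by
        intro hAS
        obtain ⟨v, hv⟩ := hS2
        rw [mem_sdiff, mem_insert] at hv
        rcases hv.1 with rfl | hv1
        · exact hv.2 hAS
        · exact hv.2 (h2 hv1)
      exact ⟨L, h2 hL, A, mem_sdiff.2 ⟨mem_insert_self _ _, hAS⟩,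
        x, mem_inter.2 ⟨mem_inter.2 ⟨hxL, hA⟩, hxF⟩⟩
  · -- `S = {A}`
    rw [not_nonempty_iff_eq_empty] at h1
    have hAS : A ∈ S := by
      obtain ⟨s, hs⟩ := hS1
      rcases mem_insert.1 (hS hs) with rfl | h
      · exact hs
      · exact absurd (mem_inter.2 ⟨hs, h⟩) (by rw [h1]; exact notMem_empty _)
    refine ⟨A, hAS, L, ?_, x, mem_inter.2 ⟨mem_inter.2 ⟨hA, hxL⟩, hxF⟩⟩
    rw [mem_sdiff]
    refine ⟨mem_insert_of_mem hL, fun hLS => ?_⟩
    exact absurd (mem_inter.2 ⟨hLS, hL⟩) (by rw [h1]; exact notMem_empty _)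

/-- lower bound of a sum over the clusters by the clusters avoiding `a`, their extensions
by `A`, and `A` itself -/
theorem sum_ge {𝓛 : Finset (Finset P)} {F : Finset P} {m a : P} {A : Finset P}
    (hA : A ∈ 𝓛) (hmA : m ∈ A) (haA : a ∈ A) (f : Finset (Finset P) → ℚ)
    (hf : ∀ C, 0 ≤ f C) :
    f {A} + ∑ C ∈ T F (𝓛.filter (fun L => a ∉ L)),
      (f C + if m ∈ un F C then f (insert A C) else 0) ≤ ∑ C ∈ T F 𝓛, f C := by
  set 𝓜 := 𝓛.filter (fun L => a ∉ L) with h𝓜
  have hA𝓜 : A ∉ 𝓜 := fun h => (mem_filter.1 h).2 haA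
  have hnot : ∀ C ∈ T F 𝓜, A ∉ C := fun C hC h => hA𝓜 ((mem_T.1 hC).1 h)
  set U := (T F 𝓜).filter (fun C => m ∈ un F C) with hU
  have hinj : Set.InjOn (fun C : Finset (Finset P) => insert A C) U := by
    intro C hC D hD h
    have h1 : A ∉ C := hnot C (mem_filter.1 hC).1
    have h2 : A ∉ D := hnot D (mem_filter.1 hD).1
    have h3 : (insert A C).erase A = (insert A D).erase A := by
      have h' : insert A C = insert A D := h
      rw [h']
    rwa [erase_insert h1, erase_insert h2] at h3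
  have hsum : ∑ C ∈ T F 𝓜, (if m ∈ un F C then f (insert A C) else 0)
      = ∑ D ∈ U.image (fun C => insert A C), f D := by
    rw [sum_image hinj, hU, sum_filter]
  rw [sum_add_distrib, hsum]
  have hd1 : Disjoint (T F 𝓜) (U.image (fun C => insert A C)) := by
    rw [disjoint_left]
    intro C hC hC'
    obtain ⟨D, _, rfl⟩ := mem_image.1 hC'
    exact hnot _ hC (mem_insert_self _ _)
  have hd2 : Disjoint {({A} : Finset (Finset P))} (T F 𝓜 ∪ U.image (fun C => insert A C)) := by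
    rw [disjoint_left]
    intro C hC hC'
    rw [mem_singleton] at hC
    subst hC
    rcases mem_union.1 hC' with h | h
    · exact hnot _ h (mem_singleton_self _)
    · obtain ⟨D, hD, h⟩ := mem_image.1 h
      obtain ⟨L, hL⟩ := (mem_T.1 (mem_filter.1 hD).1).2.1
      have h1 : L ∈ insert A D := mem_insert_of_mem hL
      have h2 : L = A := by
        have h3 : L ∈ ({A} : Finset (Finset P)) := by rw [← h]; exact h1
        exact mem_singleton.1 h3
      exact hnot D (mem_filter.1 hD).1 (h2 ▸ hL)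
  rw [← sum_union hd1, ← sum_singleton f {A}, ← sum_union hd2]
  refine sum_le_sum_of_subset_of_nonneg ?_ fun C _ _ => hf C
  intro C hC
  rcases mem_union.1 hC with h | h
  · rw [mem_singleton] at h
    rw [h, mem_T]
    exact ⟨singleton_subset_iff.2 hA, conn_singleton F A⟩
  · rcases mem_union.1 h with h | h
    · rw [mem_T] at h ⊢
      exact ⟨h.1.trans (filter_subset _ _), h.2⟩
    · obtain ⟨D, hD, rfl⟩ := mem_image.1 h
      obtain ⟨hD1, hD2⟩ := mem_filter.1 hD
      rw [mem_T] at hD1 ⊢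
      refine ⟨insert_subset hA (hD1.1.trans (filter_subset _ _)), conn_insert hD1.2 hD2 hmA⟩

theorem un_insert_eq {F : Finset P} {C : Finset (Finset P)} {A : Finset P} {m a : P}
    (hAF : A ∩ F = {m, a}) (hm : m ∈ un F C) : un F (insert A C) = insert a (un F C) := by
  ext x
  have hx : x ∈ A ∧ x ∈ F ↔ x = m ∨ x = a := by
    rw [← mem_inter, hAF, mem_insert, mem_singleton]
  rw [mem_insert, mem_un, mem_un]
  constructor
  · rintro ⟨⟨L, hL, hxL⟩, hxF⟩
    rcases mem_insert.1 hL with rfl | hL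
    · rcases hx.1 ⟨hxL, hxF⟩ with rfl | rfl
      · right; exact mem_un.1 hm
      · left; rfl
    · right; exact ⟨⟨L, hL, hxL⟩, hxF⟩
  · rintro (rfl | ⟨⟨L, hL, hxL⟩, hxF⟩)
    · obtain ⟨h1, h2⟩ := hx.2 (Or.inr rfl)
      exact ⟨⟨A, mem_insert_self _ _, h1⟩, h2⟩
    · exact ⟨⟨L, mem_insert_of_mem hL, hxL⟩, hxF⟩

theorem w_insert_eq {F : Finset P} {C : Finset (Finset P)} {A : Finset P} {m a : P}
    (hAF : A ∩ F = {m, a}) (hm : m ∈ un F C) (ha : ∀ L ∈ C, a ∉ L) :
    w F (insert A C) = w F C / 2 := by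
  have h1 : a ∉ un F C := fun h => by
    obtain ⟨⟨L, hL, h2⟩, _⟩ := mem_un.1 h
    exact ha L hL h2
  rw [w, un_insert_eq hAF hm, card_insert_of_notMem h1, pow_succ, ← w]
  ring

theorem w_singleton {F A : Finset P} {m a : P} (hma : m ≠ a) (hAF : A ∩ F = {m, a}) :
    w F {A} = 1 / 4 := by
  have h1 : un F {A} = {m, a} := by rw [un, singleton_biUnion, id, hAF]
  rw [w, h1, card_pair hma]
  norm_num

theorem conn_erase_iff {F : Finset P} {C : Finset (Finset P)} {m a : P}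
    (ha : ∀ L ∈ C, a ∉ L) : Conn ((F.erase m).erase a) C ↔ Conn (F.erase m) C :=
  conn_erase_of_forall ha

theorem conn_of_notMem_un {F : Finset P} {C : Finset (Finset P)} {m : P}
    (hm : m ∉ un F C) : Conn (F.erase m) C ↔ Conn F C := by
  by_cases hmF : m ∈ F
  · refine conn_erase_of_forall fun L hL h => hm (mem_un.2 ⟨⟨L, hL, h⟩, hmF⟩)
  · rw [erase_eq_of_notMem hmF]

/-- the potential after the exchange as a sum over the old clusters avoiding `a` -/
theorem Phi_after {F : Finset P} {𝓛 : Finset (Finset P)} {m a y : P}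
    (hya : y ≠ a) (hym : y ≠ m) :
    Phi ((F.erase m).erase a) (𝓛.filter (fun L => a ∉ L)) y
      = ∑ C ∈ T F (𝓛.filter (fun L => a ∉ L)),
        if Conn (F.erase m) C then
          al C.card * (w F C * (if m ∈ un F C then 2 else 1)) * (if y ∈ un F C then 2 else 1)
        else 0 := by
  rw [← sum_filter, Phi]
  refine sum_congr ?_ ?_
  · ext C
    rw [mem_filter, mem_powerset, mem_filter, mem_T]
    constructor
    · rintro ⟨h1, h2⟩
      have h3 : ∀ L ∈ C, a ∉ L := fun L hL => (mem_filter.1 (h1 hL)).2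
      have h4 := (conn_erase_iff h3).1 h2
      exact ⟨⟨h1, conn_mono (erase_subset _ _) h4⟩, h4⟩
    · rintro ⟨⟨h1, _⟩, h4⟩
      have h3 : ∀ L ∈ C, a ∉ L := fun L hL => (mem_filter.1 (h1 hL)).2
      exact ⟨h1, (conn_erase_iff h3).2 h4⟩
  · intro C hC
    obtain ⟨h1, _⟩ := mem_T.1 (mem_filter.1 hC).1
    have h3 : ∀ L ∈ C, a ∉ L := fun L hL => (mem_filter.1 (h1 hL)).2
    have h5 : w ((F.erase m).erase a) C = w (F.erase m) C := by
      rw [w, un_erase_of_forall h3, ← w]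
    have h6 : (y ∈ un ((F.erase m).erase a) C) ↔ y ∈ un F C := by
      rw [mem_un, mem_un, mem_erase, mem_erase]
      tauto
    rw [h5, w_erase_eq]
    simp only [h6]

/-- the potential at the mark `m` dominates the marked sums -/
theorem Phi_mark {F : Finset P} {𝓛 : Finset (Finset P)} {m a : P} (hma : m ≠ a)
    {A : Finset P} (hA : A ∈ 𝓛) (hAF : A ∩ F = {m, a}) :
    1 / 2 + (2 * Sm F (𝓛.filter (fun L => a ∉ L)) m 1 + 4 * Sm F (𝓛.filter (fun L => a ∉ L)) m 2
      + 11 / 2 * Sm F (𝓛.filter (fun L => a ∉ L)) m 3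
      + 3 * Sm F (𝓛.filter (fun L => a ∉ L)) m 4
      + Om F (𝓛.filter (fun L => a ∉ L)) m 1 + 2 * Om F (𝓛.filter (fun L => a ∉ L)) m 2
      + 4 * Om F (𝓛.filter (fun L => a ∉ L)) m 3) ≤ Phi F 𝓛 m := by
  have hmA : m ∈ A ∩ F := by rw [hAF]; exact mem_insert_self _ _
  have haA : a ∈ A ∩ F := by rw [hAF]; exact mem_insert_of_mem (mem_singleton_self _)
  have hmA1 := (mem_inter.1 hmA).1
  have haA1 := (mem_inter.1 haA).1
  have key := sum_ge (F := F) hA hmA1 haA1
    (fun C => al C.card * w F C * (if m ∈ un F C then 2 else 1))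
    (fun C => mul_nonneg (term_nonneg _ _) (by split_ifs <;> norm_num))
  have hPhi : Phi F 𝓛 m
      = ∑ C ∈ T F 𝓛, al C.card * w F C * (if m ∈ un F C then 2 else 1) := rfl
  rw [hPhi]
  refine le_trans ?_ key
  have h0 : al ({A} : Finset (Finset P)).card * w F {A} * (if m ∈ un F {A} then 2 else 1)
      = 1 / 2 := by
    have h1 : m ∈ un F {A} := mem_un.2 ⟨⟨A, mem_singleton_self _, hmA1⟩, (mem_inter.1 hmA).2⟩
    rw [if_pos h1, w_singleton hma hAF, card_singleton]
    norm_num [al]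
  rw [h0]
  gcongr
  simp only [Sm_eq, Om_eq, mul_sum, ← sum_add_distrib]
  refine sum_le_sum fun C hC => ?_
  obtain ⟨hC1, hC2⟩ := mem_T.1 hC
  have h3 : ∀ L ∈ C, a ∉ L := fun L hL => (mem_filter.1 (hC1 hL)).2
  have hAC : A ∉ C := fun h => h3 A h haA1
  have hw := w_pos F C
  by_cases hm : m ∈ un F C
  · have h4 : m ∈ un F (insert A C) := by
      rw [un_insert_eq hAF hm]; exact mem_insert_of_mem hm
    simp only [hm, h4, if_true, and_true, not_true_eq_false, and_false, if_false,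
      w_insert_eq hAF hm h3, card_insert_of_notMem hAC]
    rcases (by omega : C.card = 0 ∨ C.card = 1 ∨ C.card = 2 ∨ C.card = 3 ∨ C.card = 4
      ∨ 5 ≤ C.card) with h | h | h | h | h | h
    · simp only [h]; norm_num [al]; positivity
    · simp only [h]; norm_num [al]; linarith
    · simp only [h]; norm_num [al]; linarith
    · simp only [h]; norm_num [al]; linarith
    · simp only [h]; norm_num [al]; linarith
    · have e1 : C.card ≠ 1 := by omega
      have e2 : C.card ≠ 2 := by omega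
      have e3 : C.card ≠ 3 := by omega
      have e4 : C.card ≠ 4 := by omega
      simp only [e1, e2, e3, e4, if_false]
      have := al_nonneg C.card
      have := al_nonneg (C.card + 1)
      norm_num
      positivity
  · simp only [hm, and_false, if_false, not_false_eq_true, and_true]
    rcases (by omega : C.card = 0 ∨ C.card = 1 ∨ C.card = 2 ∨ C.card = 3
      ∨ 4 ≤ C.card) with h | h | h | h | h
    · simp only [h]; norm_num [al]
    · simp only [h]; norm_num [al]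
    · simp only [h]; norm_num [al]
    · simp only [h]; norm_num [al]
    · have e1 : C.card ≠ 1 := by omega
      have e2 : C.card ≠ 2 := by omega
      have e3 : C.card ≠ 3 := by omega
      simp only [e1, e2, e3, if_false]
      have := al_nonneg C.card
      norm_num
      positivity

/-- the potential after the exchange -/
theorem Phi_exchange {F : Finset P} {𝓛 : Finset (Finset P)} {m a y : P} (hma : m ≠ a)
    {A : Finset P} (hA : A ∈ 𝓛) (hAF : A ∩ F = {m, a}) (hy : y ∈ F) (hya : y ≠ a) (hym : y ≠ m) :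
    Phi ((F.erase m).erase a) (𝓛.filter (fun L => a ∉ L)) y + 1 / 4 ≤ Phi F 𝓛 y
      + (5 / 2 * Sv F (𝓛.filter (fun L => a ∉ L)) m 3
        + 3 * Sv F (𝓛.filter (fun L => a ∉ L)) m 4) := by
  have hmA : m ∈ A ∩ F := by rw [hAF]; exact mem_insert_self _ _
  have haA : a ∈ A ∩ F := by rw [hAF]; exact mem_insert_of_mem (mem_singleton_self _)
  have hmA1 := (mem_inter.1 hmA).1
  have haA1 := (mem_inter.1 haA).1
  have key := sum_ge (F := F) hA hmA1 haA1
    (fun C => al C.card * w F C * (if y ∈ un F C then 2 else 1))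
    (fun C => mul_nonneg (term_nonneg _ _) (by split_ifs <;> norm_num))
  have hPhi : Phi F 𝓛 y
      = ∑ C ∈ T F 𝓛, al C.card * w F C * (if y ∈ un F C then 2 else 1) := rfl
  rw [hPhi]
  have h0 : al ({A} : Finset (Finset P)).card * w F {A} * (if y ∈ un F {A} then 2 else 1)
      = 1 / 4 := by
    have h1 : y ∉ un F {A} := by
      intro h
      obtain ⟨⟨L, hL, hyL⟩, _⟩ := mem_un.1 h
      rw [mem_singleton] at hL
      subst hL
      have h2 : y ∈ L ∩ F := mem_inter.2 ⟨hyL, hy⟩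
      rw [hAF, mem_insert, mem_singleton] at h2
      tauto
    rw [if_neg h1, w_singleton hma hAF, card_singleton]
    norm_num [al]
  beta_reduce at key
  rw [h0] at key
  have hstep : ∑ C ∈ T F (𝓛.filter (fun L => a ∉ L)),
        (if Conn (F.erase m) C then
          al C.card * (w F C * (if m ∈ un F C then 2 else 1)) * (if y ∈ un F C then 2 else 1)
        else 0) ≤ ∑ C ∈ T F (𝓛.filter (fun L => a ∉ L)),
      (al C.card * w F C * (if y ∈ un F C then 2 else 1) +
        if m ∈ un F C then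
          al (insert A C).card * w F (insert A C) * (if y ∈ un F (insert A C) then 2 else 1)
        else 0) + (5 / 2 * Sv F (𝓛.filter (fun L => a ∉ L)) m 3
        + 3 * Sv F (𝓛.filter (fun L => a ∉ L)) m 4) := by
    simp only [Sv_eq, mul_sum, ← sum_add_distrib]
    refine sum_le_sum fun C hC => ?_
    obtain ⟨hC1, hC2⟩ := mem_T.1 hC
    have h3 : ∀ L ∈ C, a ∉ L := fun L hL => (mem_filter.1 (hC1 hL)).2
    have hAC : A ∉ C := fun h => h3 A h haA1
    have hw := w_pos F C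
    have hal := al_nonneg C.card
    have hal1 := al_nonneg (C.card + 1)
    by_cases hm : m ∈ un F C
    · have h4 : (y ∈ un F (insert A C)) ↔ y ∈ un F C := by
        rw [un_insert_eq hAF hm, mem_insert]
        tauto
      simp only [hm, h4, if_true, and_true, w_insert_eq hAF hm h3, card_insert_of_notMem hAC]
      by_cases hc : Conn (F.erase m) C
      · simp only [hc, if_true, and_true]
        have hcpos : 0 < C.card := card_pos.2 hC2.1
        rcases (by omega : C.card = 1 ∨ C.card = 2 ∨ C.card = 3 ∨ C.card = 4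
          ∨ 5 ≤ C.card) with h | h | h | h | h
        · simp only [h]; norm_num [al]; split_ifs <;> linarith
        · simp only [h]; norm_num [al]; split_ifs <;> linarith
        · simp only [h]; norm_num [al]; split_ifs <;> linarith
        · simp only [h]; norm_num [al]; split_ifs <;> linarith
        · have e3 : C.card ≠ 3 := by omega
          have e4 : C.card ≠ 4 := by omega
          have e5 : al C.card = 0 := by
            unfold al
            split <;> first | omega | rfl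
          simp only [e3, e4, if_false, e5]
          norm_num
          positivity
      · simp only [hc, if_false, and_false]
        norm_num
        positivity
    · simp only [hm, if_false, and_false, conn_of_notMem_un hm, hC2, if_true]
      norm_num
  rw [Phi_after hya hym]
  linarith

theorem w_ge {F : Finset P} {C : Finset (Finset P)} {k : ℕ} (h : (un F C).card ≤ k) :
    (1 / 2) ^ k ≤ w F C := by
  rw [w]
  exact pow_le_pow_of_le_one (by norm_num) (by norm_num) h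

theorem un_singleton (F R : Finset P) : un F {R} = R ∩ F := by
  rw [un, singleton_biUnion, id]

theorem un_pair (F R S : Finset P) : un F {R, S} = (R ∩ F) ∪ (S ∩ F) := by
  ext x
  rw [mem_un, mem_union, mem_inter, mem_inter]
  constructor
  · rintro ⟨⟨L, hL, hx⟩, hF⟩
    rcases mem_insert.1 hL with rfl | hL
    · exact Or.inl ⟨hx, hF⟩
    · rw [mem_singleton] at hL
      subst hL
      exact Or.inr ⟨hx, hF⟩
  · rintro (⟨hx, hF⟩ | ⟨hx, hF⟩)
    · exact ⟨⟨R, mem_insert_self _ _, hx⟩, hF⟩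
    · exact ⟨⟨S, mem_insert_of_mem (mem_singleton_self _), hx⟩, hF⟩

theorem Sm_nonneg (F : Finset P) (𝓛 : Finset (Finset P)) (m : P) (k : ℕ) : 0 ≤ Sm F 𝓛 m k := by
  rw [Sm]
  exact sum_nonneg fun C _ => by have := w_pos F C; positivity

theorem Om_nonneg (F : Finset P) (𝓛 : Finset (Finset P)) (m : P) (k : ℕ) : 0 ≤ Om F 𝓛 m k := by
  rw [Om]
  exact sum_nonneg fun C _ => (w_pos F C).le

theorem Sm_one_ge {F : Finset P} {𝓜 : Finset (Finset P)} {m : P} (hmF : m ∈ F)
    {R : Finset P} (hR : R ∈ 𝓜) (hm : m ∈ R) (hc : (R ∩ F).card ≤ 3) :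
    1 / 4 ≤ Sm F 𝓜 m 1 := by
  have h1 : ({R} : Finset (Finset P)) ∈
      (𝓜.powersetCard 1).filter (fun C => Conn F C ∧ m ∈ un F C) := by
    rw [mem_filter, mem_powersetCard]
    exact ⟨⟨singleton_subset_iff.2 hR, card_singleton _⟩, conn_singleton _ _,
      mem_un.2 ⟨⟨R, mem_singleton_self _, hm⟩, hmF⟩⟩
  have h2 := single_le_sum (f := fun C => 2 * w F C)
    (fun C _ => by have := w_pos F C; positivity) h1
  have h3 := w_ge (F := F) (C := {R}) (k := 3) (by rw [un_singleton]; exact hc)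
  rw [Sm]
  beta_reduce at h2
  norm_num at h3
  linarith

theorem Sm_one_ge_two {F : Finset P} {𝓜 : Finset (Finset P)} {m : P} (hmF : m ∈ F)
    {R S : Finset P} (hRS : R ≠ S) (hR : R ∈ 𝓜) (hS : S ∈ 𝓜) (hm : m ∈ R) (hmS : m ∈ S)
    (hc : (R ∩ F).card ≤ 3) (hcS : (S ∩ F).card ≤ 3) :
    1 / 2 ≤ Sm F 𝓜 m 1 := by
  have h1 : ({{R}, {S}} : Finset (Finset (Finset P))) ⊆
      (𝓜.powersetCard 1).filter (fun C => Conn F C ∧ m ∈ un F C) := by
    intro C hC
    rw [mem_insert, mem_singleton] at hC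
    rw [mem_filter, mem_powersetCard]
    rcases hC with rfl | rfl
    · exact ⟨⟨singleton_subset_iff.2 hR, card_singleton _⟩, conn_singleton _ _,
        mem_un.2 ⟨⟨R, mem_singleton_self _, hm⟩, hmF⟩⟩
    · exact ⟨⟨singleton_subset_iff.2 hS, card_singleton _⟩, conn_singleton _ _,
        mem_un.2 ⟨⟨S, mem_singleton_self _, hmS⟩, hmF⟩⟩
  have h2 := sum_le_sum_of_subset_of_nonneg (f := fun C => 2 * w F C) h1
    (fun C _ _ => by have := w_pos F C; positivity)
  have hne : ({R} : Finset (Finset P)) ≠ {S} := fun h => hRS (singleton_injective h)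
  rw [sum_pair hne] at h2
  have h3 := w_ge (F := F) (C := {R}) (k := 3) (by rw [un_singleton]; exact hc)
  have h4 := w_ge (F := F) (C := {S}) (k := 3) (by rw [un_singleton]; exact hcS)
  rw [Sm]
  norm_num at h3 h4
  linarith

theorem Sm_two_ge {F : Finset P} {𝓜 : Finset (Finset P)} {m p : P} (hmF : m ∈ F)
    {R S : Finset P} (hRS : R ≠ S) (hR : R ∈ 𝓜) (hS : S ∈ 𝓜) (hm : m ∈ R)
    (hpR : p ∈ R) (hpS : p ∈ S) (hpF : p ∈ F)
    (hc : ((R ∩ F) ∪ (S ∩ F)).card ≤ 4) :
    1 / 8 ≤ Sm F 𝓜 m 2 := by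
  have h1 : ({R, S} : Finset (Finset P)) ∈
      (𝓜.powersetCard 2).filter (fun C => Conn F C ∧ m ∈ un F C) := by
    rw [mem_filter, mem_powersetCard]
    refine ⟨⟨?_, card_pair hRS⟩, ?_, mem_un.2 ⟨⟨R, mem_insert_self _ _, hm⟩, hmF⟩⟩
    · intro L hL
      rw [mem_insert, mem_singleton] at hL
      rcases hL with rfl | rfl
      · exact hR
      · exact hS
    · exact conn_insert (conn_singleton F S)
        (mem_un.2 ⟨⟨S, mem_singleton_self _, hpS⟩, hpF⟩) hpR
  have h2 := single_le_sum (f := fun C => 2 * w F C)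
    (fun C _ => by have := w_pos F C; positivity) h1
  have h3 := w_ge (F := F) (C := {R, S}) (k := 4) (by rw [un_pair]; exact hc)
  rw [Sm]
  beta_reduce at h2
  norm_num at h3
  linarith

theorem Om_one_ge {F : Finset P} {𝓜 : Finset (Finset P)} {m : P}
    {R : Finset P} (hR : R ∈ 𝓜) (hm : m ∉ R) (hc : (R ∩ F).card ≤ 2) :
    1 / 4 ≤ Om F 𝓜 m 1 := by
  have h1 : ({R} : Finset (Finset P)) ∈
      (𝓜.powersetCard 1).filter (fun C => Conn F C ∧ m ∉ un F C) := by
    rw [mem_filter, mem_powersetCard]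
    refine ⟨⟨singleton_subset_iff.2 hR, card_singleton _⟩, conn_singleton _ _, fun h => ?_⟩
    rw [un_singleton] at h
    exact hm (mem_inter.1 h).1
  have h2 := single_le_sum (f := fun C => w F C) (fun C _ => (w_pos F C).le) h1
  have h3 := w_ge (F := F) (C := {R}) (k := 2) (by rw [un_singleton]; exact hc)
  rw [Om]
  beta_reduce at h2
  norm_num at h3
  linarith

/-- no double threat after the exchange, first case -/
theorem threat_one {F : Finset P} {𝓛 : Finset (Finset P)} {m a : P} (hma : m ≠ a)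
    {A : Finset P} (hA : A ∈ 𝓛) (hAF : A ∩ F = {m, a}) (hpot : Phi F 𝓛 m < 7 / 4)
    {R S : Finset P} (hR : R ∈ 𝓛) (hS : S ∈ 𝓛) (haR : a ∉ R) (haS : a ∉ S)
    (hmR : m ∈ R) (hmS : m ∉ S) {p : P} (hpF : p ∈ F) (hpR : p ∈ R) (hpS : p ∈ S)
    (cR : (R ∩ F).card = 3) (cS : (S ∩ F).card = 2) : False := by
  have hmF : m ∈ F := by
    have h : m ∈ A ∩ F := by rw [hAF]; exact mem_insert_self _ _
    exact (mem_inter.1 h).2
  have hRS : R ≠ S := fun h => hmS (h ▸ hmR)
  have hR' : R ∈ 𝓛.filter (fun L => a ∉ L) := mem_filter.2 ⟨hR, haR⟩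
  have hS' : S ∈ 𝓛.filter (fun L => a ∉ L) := mem_filter.2 ⟨hS, haS⟩
  have hc : ((R ∩ F) ∪ (S ∩ F)).card ≤ 4 := by
    have h1 := card_union_add_card_inter (R ∩ F) (S ∩ F)
    have h2 : 0 < ((R ∩ F) ∩ (S ∩ F)).card :=
      card_pos.2 ⟨p, mem_inter.2 ⟨mem_inter.2 ⟨hpR, hpF⟩, mem_inter.2 ⟨hpS, hpF⟩⟩⟩
    omega
  have h1 := Phi_mark hma hA hAF
  have h2 := Sm_one_ge hmF hR' hmR cR.le
  have h3 := Sm_two_ge hmF hRS hR' hS' hmR hpR hpS hpF hc
  have h4 := Om_one_ge (F := F) hS' hmS cS.le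
  have h5 := Sm_nonneg F (𝓛.filter (fun L => a ∉ L)) m 3
  have h6 := Sm_nonneg F (𝓛.filter (fun L => a ∉ L)) m 4
  have h7 := Om_nonneg F (𝓛.filter (fun L => a ∉ L)) m 2
  have h8 := Om_nonneg F (𝓛.filter (fun L => a ∉ L)) m 3
  linarith

/-- no double threat after the exchange, second case -/
theorem threat_two {F : Finset P} {𝓛 : Finset (Finset P)} {m a : P} (hma : m ≠ a)
    {A : Finset P} (hA : A ∈ 𝓛) (hAF : A ∩ F = {m, a}) (hpot : Phi F 𝓛 m < 7 / 4)
    {R S : Finset P} (hR : R ∈ 𝓛) (hS : S ∈ 𝓛) (haR : a ∉ R) (haS : a ∉ S) (hRS : R ≠ S)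
    (hmR : m ∈ R) (hmS : m ∈ S) {p : P} (hpm : p ≠ m) (hpF : p ∈ F) (hpR : p ∈ R) (hpS : p ∈ S)
    (cR : (R ∩ F).card = 3) (cS : (S ∩ F).card = 3) : False := by
  have hmF : m ∈ F := by
    have h : m ∈ A ∩ F := by rw [hAF]; exact mem_insert_self _ _
    exact (mem_inter.1 h).2
  have hR' : R ∈ 𝓛.filter (fun L => a ∉ L) := mem_filter.2 ⟨hR, haR⟩
  have hS' : S ∈ 𝓛.filter (fun L => a ∉ L) := mem_filter.2 ⟨hS, haS⟩
  have hc : ((R ∩ F) ∪ (S ∩ F)).card ≤ 4 := by
    have h1 := card_union_add_card_inter (R ∩ F) (S ∩ F)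
    have h3 : ({p, m} : Finset P) ⊆ (R ∩ F) ∩ (S ∩ F) := by
      intro x hx
      rw [mem_insert, mem_singleton] at hx
      rcases hx with rfl | rfl
      · exact mem_inter.2 ⟨mem_inter.2 ⟨hpR, hpF⟩, mem_inter.2 ⟨hpS, hpF⟩⟩
      · exact mem_inter.2 ⟨mem_inter.2 ⟨hmR, hmF⟩, mem_inter.2 ⟨hmS, hmF⟩⟩
    have h2 := card_le_card h3
    rw [card_pair hpm] at h2
    omega
  have h1 := Phi_mark hma hA hAF
  have h2 := Sm_one_ge_two hmF hRS hR' hS' hmR hmS cR.le cS.le
  have h3 := Sm_two_ge hmF hRS hR' hS' hmR hpR hpS hpF hc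
  have h4 := Om_nonneg F (𝓛.filter (fun L => a ∉ L)) m 1
  have h5 := Sm_nonneg F (𝓛.filter (fun L => a ∉ L)) m 3
  have h6 := Sm_nonneg F (𝓛.filter (fun L => a ∉ L)) m 4
  have h7 := Om_nonneg F (𝓛.filter (fun L => a ∉ L)) m 2
  have h8 := Om_nonneg F (𝓛.filter (fun L => a ∉ L)) m 3
  linarith

theorem inter_after {F L : Finset P} {m a : P} (ha : a ∉ L) :
    L ∩ (F.erase m).erase a = (L ∩ F).erase m := by
  ext x
  simp only [mem_inter, mem_erase]
  constructor
  · rintro ⟨h1, _, h2, h3⟩; exact ⟨h2, h1, h3⟩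
  · rintro ⟨h2, h1, h3⟩; exact ⟨h1, fun e => ha (e ▸ h1), h2, h3⟩

/-- the exchange move, from the core inequality at one place -/
theorem exchange_of {𝓛 : Finset (Finset P)} (F : Finset P)
    (h : Inv F 𝓛) (m a : P) (hma : m ≠ a) (A : Finset P) (hA : A ∈ 𝓛) (hAF : A ∩ F = {m, a})
    (hcore : Core F (𝓛.filter (fun L => a ∉ L)) m) :
    Inv ((F.erase m).erase a) (𝓛.filter (fun L => a ∉ L)) := by
  have hmA : m ∈ A ∩ F := by rw [hAF]; exact mem_insert_self _ _
  have haA : a ∈ A ∩ F := by rw [hAF]; exact mem_insert_of_mem (mem_singleton_self _)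
  obtain ⟨hmA1, hmF⟩ := mem_inter.1 hmA
  obtain ⟨haA1, haF⟩ := mem_inter.1 haA
  have hAc : (A ∩ F).card = 2 := by rw [hAF, card_pair hma]
  -- a live line through `m` avoiding `a` has three free points
  have hthree : ∀ L ∈ 𝓛, a ∉ L → m ∈ L → 3 ≤ (L ∩ F).card := by
    intro L hL haL hmL
    have h1 := h.two_le L hL
    have h2 : (L ∩ F).card ≠ 2 := by
      intro h2
      have h3 := h.nowin L hL A hA h2 hAc
        ⟨m, mem_inter.2 ⟨mem_inter.2 ⟨hmL, hmA1⟩, hmF⟩⟩
      have h4 : a ∈ L ∩ F := by rw [h3]; exact haA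
      exact haL (mem_inter.1 h4).1
    omega
  refine ⟨?_, ?_, ?_⟩
  · intro y hy
    rw [mem_erase, mem_erase] at hy
    have h1 := Phi_exchange hma hA hAF hy.2.2 hy.1 hy.2.1
    have h2 := Phi_mark hma hA hAF
    have h3 := h.pot m hmF
    have h4 := h.pot y hy.2.2
    have h5 := hcore (by linarith)
    linarith
  · intro L hL
    rw [mem_filter] at hL
    rw [inter_after hL.2]
    by_cases hm : m ∈ L
    · have h1 := hthree L hL.1 hL.2 hm
      rw [card_erase_of_mem (mem_inter.2 ⟨hm, hmF⟩)]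
      omega
    · rw [erase_eq_of_notMem fun h' => hm (mem_inter.1 h').1]
      exact h.two_le L hL.1
  · intro R hR S hS cR cS hn
    rw [mem_filter] at hR hS
    obtain ⟨p, hp⟩ := hn
    rw [mem_inter, mem_inter, mem_erase, mem_erase] at hp
    obtain ⟨⟨hpR, hpS⟩, hpa, hpm, hpF⟩ := hp
    rw [inter_after hR.2] at cR ⊢
    rw [inter_after hS.2] at cS ⊢
    have h3 : ∀ L : Finset P, m ∈ L → ((L ∩ F).erase m).card = 2 → (L ∩ F).card = 3 := by
      intro L hm hc
      have h4 := card_erase_add_one (mem_inter.2 ⟨hm, hmF⟩ : m ∈ L ∩ F)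
      omega
    have h2 : ∀ L : Finset P, m ∉ L → (L ∩ F).erase m = L ∩ F := fun L hm =>
      erase_eq_of_notMem fun h' => hm (mem_inter.1 h').1
    by_cases hmR : m ∈ R <;> by_cases hmS : m ∈ S
    · by_contra hne
      refine threat_two hma hA hAF (h.pot m hmF) hR.1 hS.1 hR.2 hS.2 ?_ hmR hmS hpm hpF hpR hpS
        (h3 R hmR cR) (h3 S hmS cS)
      rintro rfl
      exact hne rfl
    · exfalso
      rw [h2 S hmS] at cS
      exact threat_one hma hA hAF (h.pot m hmF) hR.1 hS.1 hR.2 hS.2 hmR hmS hpF hpR hpS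
        (h3 R hmR cR) cS
    · exfalso
      rw [h2 R hmR] at cR
      exact threat_one hma hA hAF (h.pot m hmF) hS.1 hR.1 hS.2 hR.2 hmS hmR hpF hpS hpR
        (h3 S hmS cS) cR
    · rw [h2 R hmR] at cR ⊢
      rw [h2 S hmS] at cS ⊢
      exact h.nowin R hR.1 S hS.1 cR cS ⟨p, mem_inter.2 ⟨mem_inter.2 ⟨hpR, hpS⟩, hpF⟩⟩

end X56

/-- Maker takes `m` of the two-point line `A = {m, a}`, Breaker answers `a`
(`core` as a hypothesis). -/
theorem exchange
    (hcore : ∀ {𝒢 𝓛 : Finset (Finset P)}, Geom 𝒢 → 𝓛 ⊆ 𝒢 → ∀ (F : Finset P) (m : P),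
      m ∈ F →
      2 * Sm F 𝓛 m 1 + 4 * Sm F 𝓛 m 2 + 11 / 2 * Sm F 𝓛 m 3 + 3 * Sm F 𝓛 m 4
        + Om F 𝓛 m 1 + 2 * Om F 𝓛 m 2 + 4 * Om F 𝓛 m 3 ≤ 5 / 4 →
      5 / 2 * Sv F 𝓛 m 3 + 3 * Sv F 𝓛 m 4 ≤ 1 / 4)
    {𝒢 𝓛 : Finset (Finset P)} (hG : Geom 𝒢) (hL : 𝓛 ⊆ 𝒢) (F : Finset P)
    (h : Inv F 𝓛) (m a : P) (hma : m ≠ a) (A : Finset P) (hA : A ∈ 𝓛) (hAF : A ∩ F = {m, a}) :
    Inv ((F.erase m).erase a) (𝓛.filter (fun L => a ∉ L)) := by
  refine X56.exchange_of F h m a hma A hA hAF ?_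
  have hmA : m ∈ A ∩ F := by rw [hAF]; exact mem_insert_self _ _
  exact hcore hG ((filter_subset _ _).trans hL) F m (mem_inter.1 hmA).2

end Torus103
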