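import Pool.Agent.Lib.MP_77f3ac_co.Lines

/-! Directions and intersections of the torus-lines of `(ℤ/10)^3`. -/

set_option autoImplicit false
set_option linter.constructorNameAsVariable false

namespace Torus103

open Finset

/-- Direction vectors. -/
def Dv (v : Pt) : Prop := (∀ i, v i = 0 ∨ v i = 1 ∨ v i = -1) ∧ v ≠ 0

/-- Same support. -/
def SS (v w : Pt) : Prop := ∀ i, v i = 0 ↔ w i = 0

/-- Signs. -/
def Sg (s : ZMod 10) : Prop := s = 1 ∨ s = -1

/-- `v` is a direction of the line `L`. -/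
def IsDir (L : Finset Pt) (v : Pt) : Prop := Dv v ∧ ∀ x ∈ L, L = line x v

theorem mem_line (P v x : Pt) : x ∈ line P v ↔ ∃ k : ZMod 10, x = P + k • v := by
  unfold line
  simp only [mem_image, mem_range]
  constructor
  · rintro ⟨k, _, rfl⟩
    exact ⟨(k : ZMod 10), rfl⟩
  · rintro ⟨k, rfl⟩
    exact ⟨k.val, ZMod.val_lt k, by rw [ZMod.natCast_zmod_val]⟩

theorem self_mem_line (P v : Pt) : P ∈ line P v :=
  (mem_line P v P).2 ⟨0, by rw [zero_smul, add_zero]⟩

theorem line_eq {P v x : Pt} (h : x ∈ line P v) : line P v = line x v := by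
  obtain ⟨k, rfl⟩ := (mem_line P v x).1 h
  ext y
  rw [mem_line, mem_line]
  constructor
  · rintro ⟨l, rfl⟩
    exact ⟨l - k, by rw [sub_smul]; abel⟩
  · rintro ⟨l, rfl⟩
    exact ⟨l + k, by rw [add_smul]; abel⟩

theorem line_neg (x v : Pt) : line x (-v) = line x v := by
  ext y
  rw [mem_line, mem_line]
  constructor
  · rintro ⟨l, rfl⟩
    exact ⟨-l, by rw [neg_smul, smul_neg]⟩
  · rintro ⟨l, rfl⟩
    exact ⟨-l, by rw [neg_smul, smul_neg, neg_neg]⟩

theorem exists_dir {L : Finset Pt} (h : L ∈ lines103) : ∃ v, IsDir L v := by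
  rw [mem_lines103] at h
  obtain ⟨P, v, h1, h2, rfl⟩ := h
  exact ⟨v, ⟨h1, h2⟩, fun x hx => line_eq hx⟩

theorem ne_of_cross {a b : Finset Pt} {v w x : Pt} (ha : IsDir a v) (hb : IsDir b w) (hxa : x ∈ a)
    (hxb : x ∈ b) (hab : a ≠ b) : w ≠ v ∧ w ≠ -v := by
  constructor
  · rintro rfl
    exact hab ((ha.2 x hxa).trans (hb.2 x hxb).symm)
  · rintro rfl
    apply hab
    rw [ha.2 x hxa, hb.2 x hxb, line_neg]

theorem sg_of_ne {v : Pt} (hv : Dv v) {i : Fin 3} (h : v i ≠ 0) : Sg (v i) :=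
  (hv.1 i).resolve_left h

theorem sg_ne {s : ZMod 10} (h : Sg s) : s ≠ 0 := by
  rcases h with rfl | rfl <;> decide

theorem sg_neg {s : ZMod 10} (h : Sg s) : Sg (-s) := by
  rcases h with rfl | rfl
  · exact Or.inr rfl
  · exact Or.inl (by decide)

theorem sg_mul {s t : ZMod 10} (h : Sg s) (h' : Sg t) : Sg (s * t) := by
  rcases h with rfl | rfl <;> rcases h' with rfl | rfl <;> unfold Sg <;> decide

theorem sg_eq_or {s t : ZMod 10} (h : Sg s) (h' : Sg t) : t = s ∨ t = -s := by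
  rcases h with rfl | rfl <;> rcases h' with rfl | rfl <;> decide

theorem sg_sq {s : ZMod 10} (h : Sg s) : s * s = 1 := by
  rcases h with rfl | rfl <;> decide

theorem mul_sg {k s : ZMod 10} (h : Sg s) (h0 : k * s = 0) : k = 0 := by
  rcases h with rfl | rfl
  · simpa using h0
  · simpa using h0

theorem two_tor : ∀ k : ZMod 10, k = -k → k = 0 ∨ k = 5 := by decide

theorem four_tor : ∀ k : ZMod 10, 2 * k = -(2 * k) → k = 0 ∨ k = 5 := by decide

theorem five_neg : (5 : ZMod 10) = -5 := by decide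

theorem exists_ne {v : Pt} (hv : Dv v) : ∃ i, v i ≠ 0 := by
  by_contra h
  push Not at h
  exact hv.2 (funext h)

theorem exists_same {v w : Pt} (hv : Dv v) (hw : Dv w) (hs : SS v w) (h : w ≠ -v) :
    ∃ i, v i ≠ 0 ∧ w i = v i := by
  by_contra hcon
  push Not at hcon
  apply h
  funext i
  by_cases h0 : v i = 0
  · rw [Pi.neg_apply, h0, (hs i).1 h0, neg_zero]
  · have h1 := hcon i h0
    have h2 : w i ≠ 0 := fun hh => h0 ((hs i).2 hh)
    rcases sg_eq_or (sg_of_ne hv h0) (sg_of_ne hw h2) with h3 | h3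
    · exact absurd h3 h1
    · exact h3

theorem exists_opp {v w : Pt} (hv : Dv v) (hw : Dv w) (hs : SS v w) (h : w ≠ v) :
    ∃ i, v i ≠ 0 ∧ w i = -v i := by
  by_contra hcon
  push Not at hcon
  apply h
  funext i
  by_cases h0 : v i = 0
  · rw [h0, (hs i).1 h0]
  · have h1 := hcon i h0
    have h2 : w i ≠ 0 := fun hh => h0 ((hs i).2 hh)
    rcases sg_eq_or (sg_of_ne hv h0) (sg_of_ne hw h2) with h3 | h3
    · exact h3
    · exact absurd h3 h1

theorem smul_at {k : ZMod 10} {v : Pt} (i : Fin 3) : (k • v) i = k * v i := rfl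

/-- Intersections of two subgroups. -/
theorem eqB {v w : Pt} (hv : Dv v) (hw : Dv w) (h1 : w ≠ v) (h2 : w ≠ -v) {k l : ZMod 10}
    (h : k • v = l • w) : (k = 0 ∧ l = 0) ∨ (k = 5 ∧ l = 5 ∧ SS v w) := by
  have hc : ∀ i, k * v i = l * w i := fun i => congrFun h i
  by_cases hs : SS v w
  · obtain ⟨i, hi, hi'⟩ := exists_same hv hw hs h2
    obtain ⟨j, hj, hj'⟩ := exists_opp hv hw hs h1
    have e1 : k = l := by
      have h3 := hc i
      rw [hi'] at h3
      have h4 : (k - l) * v i = 0 := by rw [sub_mul, h3, sub_self]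
      exact sub_eq_zero.1 (mul_sg (sg_of_ne hv hi) h4)
    have e2 : k = -l := by
      have h3 := hc j
      rw [hj'] at h3
      have h4 : (k + l) * v j = 0 := by rw [add_mul, h3]; ring
      exact eq_neg_of_add_eq_zero_left (mul_sg (sg_of_ne hv hj) h4)
    subst e1
    rcases two_tor k e2 with h5 | h5
    · exact Or.inl ⟨h5, h5⟩
    · exact Or.inr ⟨h5, h5, hs⟩
  · left
    unfold SS at hs
    push Not at hs
    obtain ⟨i, hi⟩ := hs
    obtain ⟨p, hp⟩ := exists_ne hv
    obtain ⟨q, hq⟩ := exists_ne hw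
    rcases hi with ⟨h3, h4⟩ | ⟨h3, h4⟩
    · have h5 := hc i
      rw [h3, mul_zero] at h5
      have hl : l = 0 := mul_sg (sg_of_ne hw h4) h5.symm
      have h6 := hc p
      rw [hl, zero_mul] at h6
      exact ⟨mul_sg (sg_of_ne hv hp) h6, hl⟩
    · have h5 := hc i
      rw [h4, mul_zero] at h5
      have hk : k = 0 := mul_sg (sg_of_ne hv h3) h5
      have h6 := hc q
      rw [hk, zero_mul] at h6
      exact ⟨hk, mul_sg (sg_of_ne hw hq) h6.symm⟩

/-- `5 v` only depends on the support. -/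
theorem five_eq {v w : Pt} (hv : Dv v) (hw : Dv w) (hs : SS v w) :
    (5 : ZMod 10) • v = (5 : ZMod 10) • w := by
  funext i
  rw [smul_at, smul_at]
  by_cases h : v i = 0
  · rw [h, (hs i).1 h]
  · have h2 : w i ≠ 0 := fun hh => h ((hs i).2 hh)
    rcases sg_of_ne hv h with h3 | h3 <;> rcases sg_of_ne hw h2 with h4 | h4 <;> rw [h3, h4]
    · decide
    · decide

theorem five_ne {v : Pt} (hv : Dv v) : (5 : ZMod 10) • v ≠ 0 := by
  intro h
  obtain ⟨i, hi⟩ := exists_ne hv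
  have h2 : (5 : ZMod 10) * v i = 0 := congrFun h i
  have h3 := mul_sg (sg_of_ne hv hi) h2
  exact absurd h3 (by decide)

theorem inter_sub {x v w : Pt} (hv : Dv v) (hw : Dv w) (h1 : w ≠ v) (h2 : w ≠ -v) {y : Pt}
    (hy : y ∈ line x v) (hy' : y ∈ line x w) : y = x ∨ (y = x + (5 : ZMod 10) • v ∧ SS v w) := by
  obtain ⟨k, rfl⟩ := (mem_line x v y).1 hy
  obtain ⟨l, hl⟩ := (mem_line x w _).1 hy'
  rcases eqB hv hw h1 h2 (add_left_cancel hl) with ⟨h3, _⟩ | ⟨h3, _, h4⟩
  · left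
    rw [h3, zero_smul, add_zero]
  · right
    rw [h3]
    exact ⟨rfl, h4⟩

/-- Two crossing lines with the same support. -/
theorem inter_eq {x v w : Pt} (hv : Dv v) (hw : Dv w) (h1 : w ≠ v) (h2 : w ≠ -v) (hs : SS v w) :
    line x v ∩ line x w = {x, x + (5 : ZMod 10) • v} := by
  ext y
  rw [mem_inter, mem_insert, mem_singleton]
  constructor
  · rintro ⟨h3, h4⟩
    rcases inter_sub hv hw h1 h2 h3 h4 with h5 | h5
    · exact Or.inl h5
    · exact Or.inr h5.1
  · rintro (rfl | rfl)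
    · exact ⟨self_mem_line _ _, self_mem_line _ _⟩
    · refine ⟨(mem_line _ _ _).2 ⟨5, rfl⟩, (mem_line _ _ _).2 ⟨5, ?_⟩⟩
      rw [five_eq hv hw hs]

theorem card_inter_le {a b : Finset Pt} {v w : Pt} (ha : IsDir a v) (hb : IsDir b w)
    (hab : a ≠ b) : (a ∩ b).card ≤ 2 := by
  rcases (a ∩ b).eq_empty_or_nonempty with h | ⟨x, hx⟩
  · rw [h, card_empty]
    exact Nat.zero_le _
  · obtain ⟨h1, h2⟩ := mem_inter.1 hx
    obtain ⟨h3, h4⟩ := ne_of_cross ha hb h1 h2 hab
    have h5 : a ∩ b ⊆ {x, x + (5 : ZMod 10) • v} := by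
      intro y hy
      obtain ⟨h6, h7⟩ := mem_inter.1 hy
      rw [ha.2 x h1] at h6
      rw [hb.2 x h2] at h7
      rw [mem_insert, mem_singleton]
      rcases inter_sub ha.1 hb.1 h3 h4 h6 h7 with h8 | h8
      · exact Or.inl h8
      · exact Or.inr h8.1
    exact (card_le_card h5).trans card_le_two

/-- Double crossings. -/
theorem double {a b : Finset Pt} {v w : Pt} (ha : IsDir a v) (hb : IsDir b w) (hab : a ≠ b)
    (h : (a ∩ b).card = 2) {x : Pt} (hxa : x ∈ a) (hxb : x ∈ b) :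
    SS v w ∧ w ≠ v ∧ w ≠ -v ∧ a ∩ b = {x, x + (5 : ZMod 10) • v} := by
  obtain ⟨h3, h4⟩ := ne_of_cross ha hb hxa hxb hab
  have hs : SS v w := by
    have h5 : ∃ y ∈ a ∩ b, y ≠ x := by
      by_contra hcon
      push Not at hcon
      have h6 : a ∩ b ⊆ {x} := fun y hy => mem_singleton.2 (hcon y hy)
      have h7 := card_le_card h6
      rw [h, card_singleton] at h7
      omega
    obtain ⟨y, hy, hne⟩ := h5
    obtain ⟨h6, h7⟩ := mem_inter.1 hy
    rw [ha.2 x hxa] at h6
    rw [hb.2 x hxb] at h7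
    rcases inter_sub ha.1 hb.1 h3 h4 h6 h7 with h8 | h8
    · exact absurd h8 hne
    · exact h8.2
  refine ⟨hs, h3, h4, ?_⟩
  rw [ha.2 x hxa, hb.2 x hxb]
  exact inter_eq ha.1 hb.1 h3 h4 hs

theorem double_dirs {a b : Finset Pt} {v w : Pt} (ha : IsDir a v) (hb : IsDir b w) (hab : a ≠ b)
    (h : (a ∩ b).card = 2) : SS v w ∧ w ≠ v ∧ w ≠ -v := by
  have h1 : (a ∩ b).Nonempty := by
    rw [← card_pos, h]
    exact Nat.zero_lt_two
  obtain ⟨x, hx⟩ := h1
  obtain ⟨h2, h3⟩ := mem_inter.1 hx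
  obtain ⟨h4, h5, h6, _⟩ := double ha hb hab h h2 h3
  exact ⟨h4, h5, h6⟩

theorem SS.symm {v w : Pt} (h : SS v w) : SS w v := fun i => (h i).symm

theorem SS.trans {u v w : Pt} (h : SS u v) (h' : SS v w) : SS u w := fun i => (h i).trans (h' i)

theorem fin_T1 : ∀ k m : ZMod 10, (k + m = -k + m ∨ k + m = -k - m) →
    (k + m = k - m ∨ k + m = -(k - m)) → (k + m + m = k ∨ k + m + m = -k) →
    (k = 0 ∨ k = 5) ∧ (k + m = 0 ∨ k + m = 5) := by
  decide +kernel

theorem fin_T2 : ∀ k m : ZMod 10, (k - m = -k + m ∨ k - m = -k - m) →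
    (k - m = k + m ∨ k - m = -(k + m)) → (k - m - m = k ∨ k - m - m = -k) →
    (k = 0 ∨ k = 5) ∧ (k - m = 0 ∨ k - m = 5) := by
  decide +kernel

theorem fin_T (k l m : ZMod 10) (h1 : l = k + m ∨ l = k - m) (h2 : l = -k + m ∨ l = -k - m)
    (h3 : l = k + m ∨ l = -(k + m)) (h4 : l = k - m ∨ l = -(k - m)) (h5 : l - m = k ∨ l - m = -k)
    (h6 : l + m = k ∨ l + m = -k) : (k = 0 ∨ k = 5) ∧ (l = 0 ∨ l = 5) := by
  rcases h1 with rfl | rfl
  · exact fin_T1 k m h2 h4 h6
  · exact fin_T2 k m h2 h3 h5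

/-- Three different directions with the same support. -/
theorem eqT {u v w : Pt} (hu : Dv u) (hv : Dv v) (hw : Dv w) (h1 : SS u v) (h2 : SS v w)
    (a1 : v ≠ u) (a2 : v ≠ -u) (b1 : w ≠ v) (b2 : w ≠ -v) (c1 : w ≠ u) (c2 : w ≠ -u)
    {k l m : ZMod 10} (h : l • u = k • v + m • w) : (k = 0 ∨ k = 5) ∧ (l = 0 ∨ l = 5) := by
  have hc : ∀ i, l * u i = k * v i + m * w i := fun i => congrFun h i
  have h3 : SS u w := h1.trans h2
  have su : ∀ i, u i ≠ 0 → Sg (u i) ∧ Sg (v i) ∧ Sg (w i) := fun i hi =>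
    ⟨sg_of_ne hu hi, sg_of_ne hv fun hh => hi ((h1 i).2 hh), sg_of_ne hw fun hh => hi ((h3 i).2 hh)⟩
  obtain ⟨i1, p1, q1⟩ := exists_same hu hv h1 a2
  obtain ⟨i2, p2, q2⟩ := exists_opp hu hv h1 a1
  obtain ⟨i3, p3, q3⟩ := exists_same hv hw h2 b2
  obtain ⟨i4, p4, q4⟩ := exists_opp hv hw h2 b1
  obtain ⟨i5, p5, q5⟩ := exists_same hu hw h3 c2
  obtain ⟨i6, p6, q6⟩ := exists_opp hu hw h3 c1
  have key : ∀ s t : ZMod 10, Sg s → s * t = 0 → t = 0 := fun s t hs ht =>
    mul_sg hs (by rw [mul_comm]; exact ht)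
  refine fin_T k l m ?_ ?_ ?_ ?_ ?_ ?_
  · obtain ⟨s1, s2, s3⟩ := su i1 p1
    have h4 := hc i1
    rw [q1] at h4
    rcases sg_eq_or s1 s3 with h5 | h5
    · left
      rw [h5] at h4
      have h6 := key (u i1) (l - (k + m)) s1 (by linear_combination h4)
      exact sub_eq_zero.1 h6
    · right
      rw [h5] at h4
      have h6 := key (u i1) (l - (k - m)) s1 (by linear_combination h4)
      exact sub_eq_zero.1 h6
  · obtain ⟨s1, s2, s3⟩ := su i2 p2
    have h4 := hc i2
    rw [q2] at h4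
    rcases sg_eq_or s1 s3 with h5 | h5
    · left
      rw [h5] at h4
      have h6 := key (u i2) (l - (-k + m)) s1 (by linear_combination h4)
      exact sub_eq_zero.1 h6
    · right
      rw [h5] at h4
      have h6 := key (u i2) (l - (-k - m)) s1 (by linear_combination h4)
      exact sub_eq_zero.1 h6
  · have p3' : u i3 ≠ 0 := fun hh => p3 ((h1 i3).1 hh)
    obtain ⟨s1, s2, s3⟩ := su i3 p3'
    have h4 := hc i3
    rw [q3] at h4
    rcases sg_eq_or s1 s2 with h5 | h5
    · left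
      rw [h5] at h4
      have h6 := key (u i3) (l - (k + m)) s1 (by linear_combination h4)
      exact sub_eq_zero.1 h6
    · right
      rw [h5] at h4
      have h6 := key (u i3) (l - (-(k + m))) s1 (by linear_combination h4)
      exact sub_eq_zero.1 h6
  · have p4' : u i4 ≠ 0 := fun hh => p4 ((h1 i4).1 hh)
    obtain ⟨s1, s2, s3⟩ := su i4 p4'
    have h4 := hc i4
    rw [q4] at h4
    rcases sg_eq_or s1 s2 with h5 | h5
    · left
      rw [h5] at h4
      have h6 := key (u i4) (l - (k - m)) s1 (by linear_combination h4)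
      exact sub_eq_zero.1 h6
    · right
      rw [h5] at h4
      have h6 := key (u i4) (l - (-(k - m))) s1 (by linear_combination h4)
      exact sub_eq_zero.1 h6
  · obtain ⟨s1, s2, s3⟩ := su i5 p5
    have h4 := hc i5
    rw [q5] at h4
    rcases sg_eq_or s1 s2 with h5 | h5
    · left
      rw [h5] at h4
      have h6 := key (u i5) (l - m - k) s1 (by linear_combination h4)
      exact sub_eq_zero.1 h6
    · right
      rw [h5] at h4
      have h6 := key (u i5) (l - m - (-k)) s1 (by linear_combination h4)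
      exact sub_eq_zero.1 h6
  · obtain ⟨s1, s2, s3⟩ := su i6 p6
    have h4 := hc i6
    rw [q6] at h4
    rcases sg_eq_or s1 s2 with h5 | h5
    · left
      rw [h5] at h4
      have h6 := key (u i6) (l + m - k) s1 (by linear_combination h4)
      exact sub_eq_zero.1 h6
    · right
      rw [h5] at h4
      have h6 := key (u i6) (l + m - (-k)) s1 (by linear_combination h4)
      exact sub_eq_zero.1 h6

/-- A line crossing two doubly crossing lines at different places. -/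
theorem eqK {u v w : Pt} (hu : Dv u) (hv : Dv v) (hw : Dv w) (h1 : SS u v) (a1 : v ≠ u)
    (a2 : v ≠ -u) (b1 : w ≠ v) (b2 : w ≠ -v) (c1 : w ≠ u) (c2 : w ≠ -u) {k l e : ZMod 10}
    (hk : ¬ (k = 0 ∨ k = 5)) (h : k • u = l • v + e • w) :
    (∀ i, w i ≠ 0 → u i ≠ 0) ∧ (∃ i, w i = 0 ∧ u i ≠ 0) ∧
    (∃ δ, Sg δ ∧ ∀ i, v i = δ * (if w i = 0 then u i else -u i)) ∧
    ∃ ε, Sg ε ∧ ∀ i, w i ≠ 0 → w i = ε * u i := by
  have hc : ∀ i, k * u i = l * v i + e * w i := fun i => congrFun h i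
  have he : e ≠ 0 := by
    rintro rfl
    rw [zero_smul, add_zero] at h
    rcases eqB hu hv a1 a2 h with h2 | h2
    · exact hk (Or.inl h2.1)
    · exact hk (Or.inr h2.1)
  have s1 : ∀ i, w i ≠ 0 → u i ≠ 0 := by
    intro i hi h0
    have h2 := hc i
    rw [h0, (h1 i).1 h0, mul_zero, mul_zero, zero_add] at h2
    exact he (mul_sg (sg_of_ne hw hi) h2.symm)
  have s2 : ∃ i, w i = 0 ∧ u i ≠ 0 := by
    by_contra hcon
    push Not at hcon
    have hs : SS v w := by
      intro i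
      constructor
      · intro h2
        by_contra h3
        exact s1 i h3 ((h1 i).2 h2)
      · intro h2
        exact (h1 i).1 (hcon i h2)
    exact hk (eqT hu hv hw h1 hs a1 a2 b1 b2 c1 c2 h).2
  obtain ⟨i0, hi0, hu0⟩ := s2
  have hv0 : v i0 ≠ 0 := fun hh => hu0 ((h1 i0).2 hh)
  have sg0 : Sg (u i0 * v i0) := sg_mul (sg_of_ne hu hu0) (sg_of_ne hv hv0)
  have hl : l = u i0 * v i0 * k := by
    have h2 := hc i0
    rw [hi0, mul_zero, add_zero] at h2
    have h3 := sg_sq (sg_of_ne hv hv0)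
    linear_combination (-v i0) * h2 - l * h3
  have hδ : ∀ i, v i = u i0 * v i0 * (if w i = 0 then u i else -u i) := by
    intro i
    by_cases hwi : w i = 0
    · rw [if_pos hwi]
      by_cases h0 : u i = 0
      · rw [h0, (h1 i).1 h0, mul_zero]
      · have hvi : v i ≠ 0 := fun hh => h0 ((h1 i).2 hh)
        have h2 := hc i
        rw [hwi, mul_zero, add_zero, hl] at h2
        rcases sg_eq_or (sg_mul sg0 (sg_of_ne hu h0)) (sg_of_ne hv hvi) with h3 | h3
        · exact h3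
        · exfalso
          rw [h3] at h2
          have h4 := sg_sq sg0
          have h5 : (k - -k) * u i = 0 := by linear_combination h2 - k * u i * h4
          exact hk (two_tor k (sub_eq_zero.1 (mul_sg (sg_of_ne hu h0) h5)))
    · rw [if_neg hwi]
      have h0 := s1 i hwi
      have hvi : v i ≠ 0 := fun hh => h0 ((h1 i).2 hh)
      have h2 := hc i
      rw [hl] at h2
      rcases sg_eq_or (sg_mul sg0 (sg_of_ne hu h0)) (sg_of_ne hv hvi) with h3 | h3
      · exfalso
        rw [h3] at h2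
        have h4 := sg_sq sg0
        have h5 : e * w i = 0 := by linear_combination (-1 : ZMod 10) * h2 - k * u i * h4
        exact he (mul_sg (sg_of_ne hw hwi) h5)
      · rw [h3]
        ring
  have h2k : ∀ i, w i ≠ 0 → 2 * k * u i = e * w i := by
    intro i hwi
    have h2 := hc i
    have h3 := hδ i
    rw [if_neg hwi] at h3
    rw [hl, h3] at h2
    have h4 := sg_sq sg0
    linear_combination h2 - k * u i * h4
  refine ⟨s1, ⟨i0, hi0, hu0⟩, ⟨_, sg0, hδ⟩, ?_⟩
  obtain ⟨j, hj⟩ := exists_ne hw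
  have hju := s1 j hj
  refine ⟨w j * u j, sg_mul (sg_of_ne hw hj) (sg_of_ne hu hju), fun i hi => ?_⟩
  have hiu := s1 i hi
  have e1 := h2k i hi
  have e2 := h2k j hj
  have f1 := sg_sq (sg_of_ne hu hiu)
  have f2 := sg_sq (sg_of_ne hu hju)
  have f3 := sg_sq (sg_of_ne hw hi)
  have f4 := sg_sq (sg_of_ne hw hj)
  rcases sg_eq_or (sg_mul (sg_mul (sg_of_ne hw hj) (sg_of_ne hu hju)) (sg_of_ne hu hiu))
    (sg_of_ne hw hi) with h3 | h3
  · exact h3
  · exfalso
    rw [h3] at e1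
    have h5 : 2 * k = -(2 * k) := by
      have g1 : e = 2 * k * (u j * w j) := by linear_combination (-w j) * e2 - e * f4
      rw [g1] at e1
      have g2 : (2 * k - -(2 * k)) * u i = 0 := by
        linear_combination e1 - 2 * k * u i * (w j * w j * f2 + f4)
      exact sub_eq_zero.1 (mul_sg (sg_of_ne hu hiu) g2)
    exact hk (four_tor k h5)

end Torus103
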