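import Pool.Agent.Lib.MP_77f3ac_co_h56.Dirs
import Pool.Agent.Lib.MP_77f3ac_co.Base

/-! The geometry of the torus-lines of `(ℤ/10)^3`. -/

set_option autoImplicit false
set_option linter.constructorNameAsVariable false

namespace Torus103

open Finset

attribute [local irreducible] lines103

/-- The position of `c` relative to the doubly crossing lines `a` and `b`. -/
theorem triangle {a b c : Finset Pt} {u v w : Pt} (ha : IsDir a u) (hb : IsDir b v)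
    (hc : IsDir c w) (hab : a ≠ b) (hac : a ≠ c) (hbc : b ≠ c) (h2 : (a ∩ b).card = 2)
    (h3 : (a ∩ c).Nonempty) (h4 : (b ∩ c).Nonempty) (h5 : a ∩ b ∩ c = ∅) :
    (∀ i, w i ≠ 0 → u i ≠ 0) ∧ (∃ i, w i = 0 ∧ u i ≠ 0) ∧
    (∃ δ, Sg δ ∧ ∀ i, v i = δ * (if w i = 0 then u i else -u i)) ∧
    ∃ ε, Sg ε ∧ ∀ i, w i ≠ 0 → w i = ε * u i := by
  have h1 : (a ∩ b).Nonempty := by
    rw [← card_pos, h2]
    exact Nat.zero_lt_two
  obtain ⟨x, hx⟩ := h1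
  obtain ⟨hxa, hxb⟩ := mem_inter.1 hx
  obtain ⟨hs, n1, n2, hi⟩ := double ha hb hab h2 hxa hxb
  obtain ⟨y, hy⟩ := h3
  obtain ⟨hya, hyc⟩ := mem_inter.1 hy
  obtain ⟨z, hz⟩ := h4
  obtain ⟨hzb, hzc⟩ := mem_inter.1 hz
  obtain ⟨m1, m2⟩ := ne_of_cross ha hc hya hyc hac
  obtain ⟨m3, m4⟩ := ne_of_cross hb hc hzb hzc hbc
  have hya' := hya
  have hzb' := hzb
  rw [ha.2 x hxa] at hya'
  rw [hb.2 x hxb] at hzb'
  have hyc' := hyc
  rw [hc.2 z hzc] at hyc'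
  obtain ⟨k, hk⟩ := (mem_line _ _ _).1 hya'
  obtain ⟨l, hl⟩ := (mem_line _ _ _).1 hzb'
  obtain ⟨e, he⟩ := (mem_line _ _ _).1 hyc'
  have hke : k • u = l • v + e • w := by
    have h6 : x + k • u = x + (l • v + e • w) := by
      rw [← hk, he, hl, add_assoc]
    exact add_left_cancel h6
  have hk0 : ¬ (k = 0 ∨ k = 5) := by
    intro h6
    have h7 : y ∈ a ∩ b := by
      rw [hi, mem_insert, mem_singleton, hk]
      rcases h6 with h6 | h6
      · left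
        rw [h6, zero_smul, add_zero]
      · right
        rw [h6]
    have h8 : y ∈ a ∩ b ∩ c := mem_inter.2 ⟨h7, hyc⟩
    rw [h5] at h8
    exact notMem_empty _ h8
  exact eqK ha.1 hb.1 hc.1 hs n1 n2 m3 m4 m1 m2 hk0 hke

theorem pair_shift (p v : Pt) :
    ({p + (5 : ZMod 10) • v, p + (5 : ZMod 10) • v + (5 : ZMod 10) • v} : Finset Pt) =
      {p, p + (5 : ZMod 10) • v} := by
  have h1 : p + (5 : ZMod 10) • v + (5 : ZMod 10) • v = p := by
    rw [add_assoc, ← add_smul]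
    have h2 : (5 : ZMod 10) + 5 = 0 := by decide
    rw [h2, zero_smul, add_zero]
  rw [h1, pair_comm]

theorem pair_eq {p q v : Pt} {k : ZMod 10} (h : q = p + k • v) (hk : k = 0 ∨ k = 5) :
    ({q, q + (5 : ZMod 10) • v} : Finset Pt) = {p, p + (5 : ZMod 10) • v} := by
  rcases hk with rfl | rfl
  · rw [h, zero_smul, add_zero]
  · rw [h, pair_shift]

theorem geom_trans {a b c : Finset Pt} (ha : a ∈ lines103) (hb : b ∈ lines103)
    (hc : c ∈ lines103) (hab : a ≠ b) (hbc : b ≠ c) (hac : a ≠ c) (h1 : (a ∩ b).card = 2)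
    (h2 : (b ∩ c).card = 2) (h3 : (a ∩ c).Nonempty) : a ∩ b = b ∩ c ∧ a ∩ c = b ∩ c := by
  obtain ⟨u, du⟩ := exists_dir ha
  obtain ⟨v, dv⟩ := exists_dir hb
  obtain ⟨w, dw⟩ := exists_dir hc
  have n1 : (a ∩ b).Nonempty := by
    rw [← card_pos, h1]
    exact Nat.zero_lt_two
  have n2 : (b ∩ c).Nonempty := by
    rw [← card_pos, h2]
    exact Nat.zero_lt_two
  obtain ⟨x, hx⟩ := n1
  obtain ⟨y, hy⟩ := n2
  obtain ⟨z, hz⟩ := h3
  obtain ⟨hxa, hxb⟩ := mem_inter.1 hx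
  obtain ⟨hyb, hyc⟩ := mem_inter.1 hy
  obtain ⟨hza, hzc⟩ := mem_inter.1 hz
  obtain ⟨s1, p1, q1, i1⟩ := double du dv hab h1 hxa hxb
  obtain ⟨s2, p2, q2, i2⟩ := double dv dw hbc h2 hyb hyc
  obtain ⟨p3, q3⟩ := ne_of_cross du dw hza hzc hac
  have i3 : a ∩ c = {z, z + (5 : ZMod 10) • u} := by
    rw [du.2 z hza, dw.2 z hzc]
    exact inter_eq du.1 dw.1 p3 q3 (s1.trans s2)
  have f1 := five_eq du.1 dv.1 s1
  have hyb' := hyb
  rw [dv.2 x hxb] at hyb'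
  have hza' := hza
  rw [du.2 x hxa] at hza'
  have hzc' := hzc
  rw [dw.2 y hyc] at hzc'
  obtain ⟨k, hk⟩ := (mem_line _ _ _).1 hyb'
  obtain ⟨l, hl⟩ := (mem_line _ _ _).1 hza'
  obtain ⟨m, hm⟩ := (mem_line _ _ _).1 hzc'
  have hke : l • u = k • v + m • w := by
    have h6 : x + l • u = x + (k • v + m • w) := by
      rw [← hl, hm, hk, add_assoc]
    exact add_left_cancel h6
  obtain ⟨hk5, hl5⟩ := eqT du.1 dv.1 dw.1 s1 s2 p1 q1 p2 q2 p3 q3 hke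
  have e1 : b ∩ c = {x, x + (5 : ZMod 10) • v} := by
    rw [i2]
    exact pair_eq hk hk5
  have e2 : a ∩ c = {x, x + (5 : ZMod 10) • u} := by
    rw [i3]
    exact pair_eq hl hl5
  rw [i1, e1, e2, f1]
  exact ⟨rfl, rfl⟩

theorem eq_of_restrict {u w w' : Pt} (hs : SS w w') {ε ε' : ZMod 10}
    (hε : Sg ε) (hε' : Sg ε') (h : ∀ i, w i ≠ 0 → w i = ε * u i)
    (h' : ∀ i, w' i ≠ 0 → w' i = ε' * u i) : w' = w ∨ w' = -w := by
  rcases sg_eq_or hε hε' with h1 | h1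
  · left
    funext i
    by_cases h0 : w i = 0
    · rw [h0, (hs i).1 h0]
    · have h2 : w' i ≠ 0 := fun hh => h0 ((hs i).2 hh)
      rw [h i h0, h' i h2, h1]
  · right
    funext i
    rw [Pi.neg_apply]
    by_cases h0 : w i = 0
    · rw [h0, (hs i).1 h0, neg_zero]
    · have h2 : w' i ≠ 0 := fun hh => h0 ((hs i).2 hh)
      rw [h i h0, h' i h2, h1]
      ring

theorem inter_swap (a b c : Finset Pt) : b ∩ a ∩ c = a ∩ b ∩ c := by
  rw [inter_comm b a]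

theorem geom_plane {a b c d : Finset Pt} (ha : a ∈ lines103) (hb : b ∈ lines103)
    (hc : c ∈ lines103) (hd : d ∈ lines103) (hab : a ≠ b) (hac : a ≠ c) (had : a ≠ d)
    (hbc : b ≠ c) (hbd : b ≠ d) (hcd : c ≠ d) (h1 : (a ∩ b).card = 2) (h2 : (c ∩ d).card = 2)
    (h3 : (a ∩ c).Nonempty) (h4 : (b ∩ c).Nonempty) (h5 : a ∩ b ∩ c = ∅)
    (h6 : (a ∩ d).Nonempty ∧ (b ∩ d).Nonempty ∧ a ∩ b ∩ d = ∅ ∨
      (a ∩ d).Nonempty ∧ a ∩ c ∩ d = ∅ ∨ (b ∩ d).Nonempty ∧ b ∩ c ∩ d = ∅) : False := by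
  obtain ⟨u, du⟩ := exists_dir ha
  obtain ⟨v, dv⟩ := exists_dir hb
  obtain ⟨w, dw⟩ := exists_dir hc
  obtain ⟨t, dt⟩ := exists_dir hd
  obtain ⟨t1, ⟨i, hi, hi'⟩, t3, ε, hε, t4⟩ := triangle du dv dw hab hac hbc h1 h3 h4 h5
  obtain ⟨s1, _, _⟩ := double_dirs du dv hab h1
  obtain ⟨s2, p2, q2⟩ := double_dirs dw dt hcd h2
  rcases h6 with ⟨g1, g2, g3⟩ | ⟨g1, g2⟩ | ⟨g1, g2⟩
  · obtain ⟨r1, r2, r3, ε', hε', r4⟩ := triangle du dv dt hab had hbd h1 g1 g2 g3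
    rcases eq_of_restrict s2 hε hε' t4 r4 with h7 | h7
    · exact p2 h7
    · exact q2 h7
  · have g3 : c ∩ d ∩ a = ∅ := by
      rw [inter_comm, ← inter_assoc]
      exact g2
    have g4 : (c ∩ a).Nonempty := by rwa [inter_comm]
    have g5 : (d ∩ a).Nonempty := by rwa [inter_comm]
    obtain ⟨r1, _⟩ := triangle dw dt du hcd hac.symm had.symm h2 g4 g5 g3
    exact r1 i hi' hi
  · have g3 : c ∩ d ∩ b = ∅ := by
      rw [inter_comm, ← inter_assoc]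
      exact g2
    have g4 : (c ∩ b).Nonempty := by rwa [inter_comm]
    have g5 : (d ∩ b).Nonempty := by rwa [inter_comm]
    obtain ⟨r1, _⟩ := triangle dw dt dv hcd hbc.symm hbd.symm h2 g4 g5 g3
    exact r1 i (fun hh => hi' ((s1 i).2 hh)) hi

theorem geom_star {a b c d : Finset Pt} (ha : a ∈ lines103) (hb : b ∈ lines103)
    (hc : c ∈ lines103) (hd : d ∈ lines103) (hab : a ≠ b) (hac : a ≠ c) (had : a ≠ d)
    (hbc : b ≠ c) (hbd : b ≠ d) (hcd : c ≠ d) (h1 : (b ∩ c).card = 2) (h2 : (c ∩ d).card = 2)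
    (h3 : (b ∩ d).card = 2) (g1 : (a ∩ b).Nonempty) (g2 : (a ∩ c).Nonempty)
    (g3 : (a ∩ d).Nonempty) (e1 : a ∩ b ∩ c = ∅) (e2 : a ∩ c ∩ d = ∅) : False := by
  obtain ⟨u, du⟩ := exists_dir ha
  obtain ⟨v, dv⟩ := exists_dir hb
  obtain ⟨w, dw⟩ := exists_dir hc
  obtain ⟨t, dt⟩ := exists_dir hd
  have f1 : b ∩ c ∩ a = ∅ := by
    rw [inter_comm, ← inter_assoc]
    exact e1
  have f2 : c ∩ d ∩ a = ∅ := by
    rw [inter_comm, ← inter_assoc]
    exact e2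
  have k1 : (b ∩ a).Nonempty := by rwa [inter_comm]
  have k2 : (c ∩ a).Nonempty := by rwa [inter_comm]
  have k3 : (d ∩ a).Nonempty := by rwa [inter_comm]
  obtain ⟨_, _, ⟨δ, hδ, r1⟩, _⟩ := triangle dv dw du hbc hab.symm hac.symm h1 k1 k2 f1
  obtain ⟨_, _, ⟨δ', hδ', r2⟩, _⟩ := triangle dw dt du hcd hac.symm had.symm h2 k2 k3 f2
  obtain ⟨_, p3, q3⟩ := double_dirs dv dt hbd h3
  have h4 : ∀ i, t i = δ' * δ * v i := by
    intro i
    rw [r2 i, r1 i]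
    by_cases h0 : u i = 0
    · rw [if_pos h0, if_pos h0]
      ring
    · rw [if_neg h0, if_neg h0]
      ring
  rcases sg_mul hδ' hδ with h5 | h5
  · apply p3
    funext i
    rw [h4 i, h5, one_mul]
  · apply q3
    funext i
    rw [h4 i, h5, Pi.neg_apply]
    ring

theorem fin_P : ∀ k : ZMod 10, ¬ (k = 0 ∨ k = 5) → ∃ j : Fin 4,
    (k = ((j : ℕ) : ZMod 10) + 1 ∨ k = ((j : ℕ) : ZMod 10) + 6) := by
  decide

theorem fin_Q : ∀ j j' : Fin 4, (((j : ℕ) : ZMod 10) + 1 - (((j' : ℕ) : ZMod 10) + 1) = 0 ∨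
    ((j : ℕ) : ZMod 10) + 1 - (((j' : ℕ) : ZMod 10) + 1) = 5) → j = j' := by
  decide

theorem geom_pairs {b : Finset Pt} (hb : b ∈ lines103) {m : Pt} (hm : m ∈ b) :
    ∃ i : Finset Pt → Fin 4, ∀ h ∈ lines103, ∀ h' ∈ lines103, h ≠ b → h' ≠ b →
    (h ∩ b).card = 2 → (h' ∩ b).card = 2 → m ∉ h → m ∉ h' → i h = i h' → h ∩ b = h' ∩ b := by
  classical
  obtain ⟨v, dv⟩ := exists_dir hb
  have key : ∀ h : Finset Pt, ∃ j : Fin 4, h ∈ lines103 → h ≠ b → (h ∩ b).card = 2 → m ∉ h →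
      h ∩ b = {m + (((j : ℕ) : ZMod 10) + 1) • v,
        m + (((j : ℕ) : ZMod 10) + 1) • v + (5 : ZMod 10) • v} := by
    intro h
    by_cases hh : h ∈ lines103 ∧ h ≠ b ∧ (h ∩ b).card = 2 ∧ m ∉ h
    · obtain ⟨h1, h2, h3, h4⟩ := hh
      obtain ⟨u, du⟩ := exists_dir h1
      have n1 : (h ∩ b).Nonempty := by
        rw [← card_pos, h3]
        exact Nat.zero_lt_two
      obtain ⟨x, hx⟩ := n1
      obtain ⟨hxh, hxb⟩ := mem_inter.1 hx
      obtain ⟨s1, p1, q1, i1⟩ := double du dv h2 h3 hxh hxb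
      have f1 := five_eq du.1 dv.1 s1
      rw [f1] at i1
      have hxb' := hxb
      rw [dv.2 m hm] at hxb'
      obtain ⟨k, hk⟩ := (mem_line _ _ _).1 hxb'
      have hk0 : ¬ (k = 0 ∨ k = 5) := by
        rintro (rfl | rfl)
        · rw [zero_smul, add_zero] at hk
          exact h4 (hk ▸ hxh)
        · have h5 : m ∈ h ∩ b := by
            rw [i1, mem_insert, mem_singleton]
            right
            rw [hk, add_assoc, ← add_smul]
            have h6 : (5 : ZMod 10) + 5 = 0 := by decide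
            rw [h6, zero_smul, add_zero]
          exact h4 (mem_inter.1 h5).1
      obtain ⟨j, hj⟩ := fin_P k hk0
      refine ⟨j, fun _ _ _ _ => ?_⟩
      rw [i1]
      rcases hj with hj | hj
      · rw [hk, hj]
      · refine pair_eq (k := 5) ?_ (Or.inr rfl)
        rw [hk, hj, add_assoc, ← add_smul]
        congr 2
        ring
    · refine ⟨0, fun h1 h2 h3 h4 => absurd ⟨h1, h2, h3, h4⟩ hh⟩
  choose i hi using key
  refine ⟨i, fun h h1 h' h1' h2 h2' h3 h3' h4 h4' h5 => ?_⟩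
  rw [hi h h1 h2 h3 h4, hi h' h1' h2' h3' h4', h5]

theorem geom_torus : Geom lines103 where
  two := fun a ha b hb hab => by
    obtain ⟨u, du⟩ := exists_dir ha
    obtain ⟨v, dv⟩ := exists_dir hb
    exact card_inter_le du dv hab
  trans := fun a ha b hb c hc h1 h2 h3 h4 h5 h6 => geom_trans ha hb hc h1 h2 h3 h4 h5 h6
  plane := fun a ha b hb c hc d hd h1 h2 h3 h4 h5 h6 h7 h8 h9 h10 h11 h12 =>
    geom_plane ha hb hc hd h1 h2 h3 h4 h5 h6 h7 h8 h9 h10 h11 h12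
  star := fun a ha b hb c hc d hd h1 h2 h3 h4 h5 h6 h7 h8 h9 h10 h11 h12 h13 h14 =>
    geom_star ha hb hc hd h1 h2 h3 h4 h5 h6 h7 h8 h9 h10 h11 h12 h13 h14
  pairs := fun b hb m hm => geom_pairs hb hm

end Torus103
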